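import Mathlib
import Pool.Agent.H29.RGFDefs
import Pool.Agent.H29.RGF1221

set_option autoImplicit false

namespace Pool.Agent.Results.MP_3ac9ea_co.Stable

open Pool.Agent.H29.RGF

theorem result : ∀ k : ℕ, ∃ N : ℕ, ∀ n : ℕ, N ≤ n → coeffRB n k = coeffRB N k := by
  intro k
  refine ⟨3 * k + 2, fun n hn => ?_⟩
  induction n, hn using Nat.le_induction with
  | base => rfl
  | succ n hn ih =>
    obtain ⟨m, rfl⟩ : ∃ m, n = m + 1 := ⟨n - 1, by omega⟩
    rw [← ih]
    exact step (by omega)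

end Pool.Agent.Results.MP_3ac9ea_co.Stable
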